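import Pool.Agent.Helper97_WHT.Stmt

/-!
# Squad WHT, row SIE: the Siegel property
-/

set_option autoImplicit false

open scoped BigOperators

namespace Pool.Agent.WHT.H63

open Pool.Agent.DEN Pool.Agent.TMP

section
variable {r : ℕ} {C : Matrix (Fin r) (Fin r) ℤ} {K : Type} [Field K]

/-- the decomposition `U = (U ∩ Γ) U(𝒪)` -/
theorem decomp (hC : SimplyLaced C) {u : grp C K} (hu : u ∈ Ug C K) :
    ∃ a ∈ Ug C K, a ∈ arith C K 1 ∧ ∃ c ∈ UO hC K, u = a * c := by
  have hF1 := H22.hF1 K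
  have hF2 := H22.hF2 K
  have e : {g : grp C K | ∃ (β : Rt C) (a : FF K), β.Pos ∧ g = xg hC β a} =
      {g : grp C K | ∃ β ∈ {β : Rt C | β.Pos}, ∃ a : FF K, g = xg hC β a} := by
    ext g
    constructor
    · rintro ⟨β, a, hβ, h⟩
      exact ⟨β, hβ, a, h⟩
    · rintro ⟨β, hβ, a, h⟩
      exact ⟨β, a, hβ, h⟩
  have hu' := hu
  rw [Ug_eq hC, e] at hu'
  obtain ⟨a, ha, b, hb, hab⟩ := H67.filt (K := K) H22.relA H22.relB H22.hRF hC
    {β : Rt C | β.Pos}
    (fun β hβ => (pos_iff hC β).1 hβ)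
    (fun β hβ γ hγ δ hδ => by
      intro i
      rw [hδ]
      exact add_nonneg (hβ i) (hγ i))
    (arith C K 1) (UO hC K)
    (fun β hβ a => by
      obtain ⟨b, hb⟩ := hF2.2.2.2.1 1 one_ne_zero a
      rw [map_one, one_mul] at hb
      refine ⟨polyL K b, a - polyL K b, by ring, ?_, ?_⟩
      · refine Subgroup.subset_closure ⟨β, polyL K b, ?_, fun _ => rfl⟩
        exact Subring.subset_closure (Or.inl ⟨b, rfl⟩)
      · refine Subgroup.subset_closure ⟨β, a - polyL K b, hβ, ?_, rfl⟩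
        exact hF1.2.2.2.2.1 _ _ _ (by simp) hb) u hu'
  refine ⟨a, ?_, ha.1, b, hb.1, hab⟩
  rw [Ug_eq hC, e]
  exact ha.2

/-- pairing of a positive root with a dominant vector -/
theorem ip_nonneg {m : Fin r → ℤ} (hm : IsDom C m) {β : Rt C} (hβ : β.Pos) :
    0 ≤ ip C β.1 m := by
  rw [Pool.Agent.TMP.H63.ip_exp]
  exact Finset.sum_nonneg fun i _ => mul_nonneg (hβ i) (hm i)

/-- `U(𝒪)` fixes the point `t^m o` for a dominant `m` -/
theorem uo_fix (hC : SimplyLaced C) {m : Fin r → ℤ} (hm : IsDom C m) {c : grp C K}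
    (hc : c ∈ UO hC K) : c • tp hC K m = tp hC K m := by
  unfold UO at hc
  induction hc using Subgroup.closure_induction with
  | mem x hx =>
    obtain ⟨β, a, hβ, ha, rfl⟩ := hx
    exact xg_tp hC m β ((H22.hF1 K).2.2.2.2.1 _ _ _ (ip_nonneg hm hβ) ha)
  | one => exact one_smul _ _
  | mul x y _ _ h1 h2 => rw [mul_smul, h2, h1]
  | inv x _ h => rw [inv_smul_eq_iff, h]

/-- weights for a combination -/
theorem wt_comb (c : ℤ) (m l : Fin r → ℤ) (k : Fin r ⊕ Rt C) :
    H26.wt (c • m + l) k = c * H26.wt m k + H26.wt l k := by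
  cases k with
  | inl i => show (0 : ℤ) = c * 0 + 0; ring
  | inr β =>
    show ip C β.1 (c • m + l) = c * ip C β.1 m + ip C β.1 l
    rw [ip_add_right, ip_smul_right]

/-- the entries of an element which maps `t^m o` to `t^m' o` -/
theorem entry_bd (hC : SimplyLaced C) {δ : grp C K} {m m' : Fin r → ℤ}
    (h : δ • tp hC K m = tp hC K m') (j k : Fin r ⊕ Rt C) :
    H26.co (δ.1 (H26.bv j)) k ∈ Bd K (H26.wt m' k - H26.wt m j) := by
  obtain ⟨b0, badd, bneg, bmul, bmono, bint, ttne, bsh, -⟩ := H22.hF1 K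
  have h1B : (1 : FF K) ∈ Bd K 0 := by simpa using bint 1
  have hg : (tg hC K m')⁻¹ * (δ * tg hC K m) ∈ maxK C K := by
    unfold tp at h
    rw [smul_pt] at h
    unfold pt at h
    exact QuotientGroup.eq.1 h.symm
  have h1 := (hg (H26.bv j)).2 (H26.cd_bv (b0 0) h1B j)
  have h2 := (H26.cd_iff _ _).1 h1 k
  have h3 : ((tg hC K m')⁻¹ * (δ * tg hC K m)).1 (H26.bv j) =
      (tg hC K (-m')).1 (δ.1 ((tg hC K m).1 (H26.bv j))) := by
    rw [tg_neg]
    rfl
  have h4 : (tg hC K m).1 (H26.bv j : LieV C (FF K)) = tt K ^ (H26.wt m j) • H26.bv j := by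
    classical
    apply H26.co_ext
    intro i
    rw [H26.tor_co (isTor_tg hC m), H26.co_smul, H26.co_bv]
    split_ifs with hh
    · rw [hh]
    · ring
  have hw : H26.wt (C := C) (-m') k = - H26.wt m' k := by
    cases k with
    | inl i => show (0 : ℤ) = -0; ring
    | inr β => exact ip_neg_right _ _ _
  rw [h3, H26.tor_co (isTor_tg hC (-m')), h4, map_smul, H26.co_smul, hw, ← mul_assoc,
    ← zpow_add₀ ttne] at h2
  set y : FF K := H26.co (δ.1 (H26.bv j)) k with hy
  have h5 : y = tt K ^ (H26.wt m' k - H26.wt m j) *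
      (tt K ^ (-H26.wt m' k + H26.wt m j) * y) := by
    rw [← mul_assoc, ← zpow_add₀ ttne]
    have : H26.wt m' k - H26.wt m j + (-H26.wt m' k + H26.wt m j) = 0 := by ring
    rw [this, zpow_zero, one_mul]
  rw [h5]
  exact (bsh _ _).2 h2

/-- the entries of an element of `U` -/
theorem entry_uni (hC : SimplyLaced C) {w : grp C K} (hw : w ∈ Ug C K) (j k : Fin r ⊕ Rt C)
    (hjk : H26.wt (C := C) (Pool.Agent.TMP.H63.rho C) k ≤ H26.wt (Pool.Agent.TMP.H63.rho C) j) :
    H26.co (w.1 (H26.bv j)) k = H26.co (H26.bv (K := K) j) k := by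
  have h1 := (H39.luni_Ug hC (l := Pool.Agent.TMP.H63.rho C)
    (fun β => Pool.Agent.TMP.H63.ip_ht hC β) hw).1
    (H26.wt (Pool.Agent.TMP.H63.rho C) j) (H26.bv j) (by
      classical
      rw [H26.fil_iff]
      intro i hi
      rw [H26.co_bv, if_neg]
      rintro rfl
      exact lt_irrefl _ hi)
  rw [H26.fil_iff] at h1
  have h2 := h1 k (by omega)
  rw [H26.co_sub, sub_eq_zero] at h2
  exact h2

/-- a constant polynomial divisible by a nonconstant one vanishes -/
theorem const_dvd {N p : Polynomial K} (hN : 0 < N.natDegree) (hp : polyL K p ∈ Bd K 0)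
    (b : Polynomial K) (h : polyL K p = polyL K N * polyL K b) : polyL K p = 0 := by
  obtain ⟨pinj, pbd, pdeg, -, pran⟩ := H22.hF2 K
  by_contra hne
  have hp0 : p ≠ 0 := by
    rintro rfl
    exact hne (map_zero _)
  have h1 : p = N * b := pinj (by rw [map_mul]; exact h)
  have h2 := pdeg p 0 hp0 hp
  have hN0 : N ≠ 0 := by
    rintro rfl
    simp at hN
  have hb0 : b ≠ 0 := by
    rintro rfl
    exact hp0 (by rw [h1, mul_zero])
  rw [h1, Polynomial.natDegree_mul hN0 hb0] at h2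
  omega

theorem siegel (hC : SimplyLaced C) {N : Polynomial K} (hN : 0 < N.natDegree) {γ : grp C K}
    (hγ : γ ∈ cong C K 1 N) {m m' : Fin r → ℤ} (hm : IsDom C m) (hm' : IsDom C m')
    {u u' : grp C K} (hu : u ∈ Ug C K) (hu' : u' ∈ Ug C K)
    (h : γ • (u • tp hC K m) = u' • tp hC K m') : γ ∈ Ug C K ∧ m = m' := by
  classical
  obtain ⟨b0, badd, bneg, bmul, bmono, bint, ttne, bsh, -⟩ := H22.hF1 K
  obtain ⟨pinj, pbd, pdeg, -, pran⟩ := H22.hF2 K
  have hN0 : N ≠ 0 := by
    rintro rfl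
    simp at hN
  obtain ⟨hn1, -, -, -, -, hn6⟩ := H22.hNrm r C hC K 1 N one_ne_zero hN0 isCoprime_one_left
  have hmem1 : ∀ y : FF K, y ∈ ringA K 1 ↔ ∃ p, polyL K p = y := by
    intro y
    have := Set.ext_iff.mp pran y
    exact this
  obtain ⟨a, ha, haA, c, hc, rfl⟩ := decomp hC hu
  obtain ⟨a', ha', haA', c', hc', rfl⟩ := decomp hC hu'
  rw [mul_smul, mul_smul, uo_fix hC hm hc, uo_fix hC hm' hc'] at h
  -- the element `δ`
  set δ : grp C K := a'⁻¹ * γ * a with hδ
  have hδt : δ • tp hC K m = tp hC K m' := by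
    rw [hδ, mul_smul, mul_smul, h, inv_smul_smul]
  have hδA : δ ∈ arith C K 1 := mul_mem (mul_mem (inv_mem haA') hγ.1) haA
  set w : grp C K := a'⁻¹ * a with hw
  have hwU : w ∈ Ug C K := mul_mem (inv_mem ha') ha
  have hwA : w ∈ arith C K 1 := mul_mem (inv_mem haA') haA
  have hγ1 : a'⁻¹ * γ * a'⁻¹⁻¹ ∈ cong C K 1 N := hn1 _ (inv_mem haA') γ hγ
  have hδw : δ = (a'⁻¹ * γ * a'⁻¹⁻¹) * w := by rw [hδ, hw]; group
  have h1A : (1 : FF K) ∈ ringA K 1 := one_mem _
  have h0A : (0 : FF K) ∈ ringA K 1 := zero_mem _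
  -- entries are polynomials
  have hint : ∀ j k : Fin r ⊕ Rt C, ∃ p : Polynomial K, polyL K p = H26.co (δ.1 (H26.bv j)) k := by
    intro j k
    have h1 := hn6 δ hδA (H26.bv j) (H26.cd_bv h0A h1A j)
    exact (hmem1 _).1 ((H26.cd_iff _ _).1 h1 k)
  -- congruence
  have hcong : ∀ j k : Fin r ⊕ Rt C, ∃ b : Polynomial K,
      H26.co (δ.1 (H26.bv j)) k - H26.co (w.1 (H26.bv j)) k = polyL K N * polyL K b := by
    intro j k
    have h1 := hn6 w hwA (H26.bv j) (H26.cd_bv h0A h1A j)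
    have h2 := hγ1.2.1 (w.1 (H26.bv j)) h1
    have h3 := (H26.cd_iff _ _).1 h2 k
    obtain ⟨b, hb, hb'⟩ := h3
    obtain ⟨p, hp⟩ := (hmem1 b).1 hb
    refine ⟨p, ?_⟩
    rw [hp, ← hb', H26.co_sub]
    have e : δ.1 (H26.bv j) = (a'⁻¹ * γ * a'⁻¹⁻¹).1 (w.1 (H26.bv j)) := by
      rw [hδw]; rfl
    rw [e]
  -- the torus part
  have hle : ∀ β : Rt C, ip C β.1 m ≤ ip C β.1 m' := by
    intro β
    obtain ⟨p, hp⟩ := hint (Sum.inr β) (Sum.inr β)
    obtain ⟨b, hb⟩ := hcong (Sum.inr β) (Sum.inr β)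
    rw [entry_uni hC hwU _ _ le_rfl, H26.co_bv, if_pos rfl] at hb
    have hp0 : p ≠ 0 := by
      rintro rfl
      rw [← hp, map_zero, zero_sub] at hb
      have h1 : polyL K (-1) = polyL K N * polyL K b := by
        rw [map_neg, map_one]; exact hb
      have h2 := const_dvd hN (p := -1) (by
        rw [map_neg, map_one]
        exact bneg _ _ (by simpa using bint 1)) b h1
      rw [map_neg, map_one, neg_eq_zero] at h2
      exact one_ne_zero h2
    have h3 := entry_bd hC hδt (Sum.inr β) (Sum.inr β)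
    rw [← hp] at h3
    have h4 := pdeg p _ hp0 h3
    have h5 : H26.wt (C := C) m' (Sum.inr β) = ip C β.1 m' := rfl
    have h6 : H26.wt (C := C) m (Sum.inr β) = ip C β.1 m := rfl
    rw [h5, h6] at h4
    omega
  have hmm : m = m' := by
    apply (H22.hRS r C hC).2.2.1
    intro i
    have k1 := hle (hC.sr i)
    have k2 := hle (hC.sr i).neg
    rw [Rt.neg_val, ip_neg_left, ip_neg_left] at k2
    rw [SimplyLaced.sr_val] at k1 k2
    omega
  refine ⟨?_, hmm⟩
  subst hmm
  -- a bound for the heights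
  have hfin : Finite (Rt C) := H22.hRF r C hC
  have := Fintype.ofFinite (Rt C)
  set R : Fin r → ℤ := Pool.Agent.TMP.H63.rho C with hR
  obtain ⟨B, hB⟩ : ∃ B : ℤ, ∀ k : Fin r ⊕ Rt C, |H26.wt R k| ≤ B := by
    obtain ⟨B, hB⟩ := (Set.finite_range (fun k : Fin r ⊕ Rt C => |H26.wt R k|)).bddAbove
    exact ⟨B, fun k => hB ⟨k, rfl⟩⟩
  set q : ℤ := 2 * |B| + 1 with hq
  set l : Fin r → ℤ := q • m + R with hl
  have hq0 : 0 < q := by positivity
  have hldom : IsDom C l := by
    intro i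
    rw [hl, ip_add_right, ip_smul_right, hR, Pool.Agent.TMP.H63.ip_rho hC]
    have := mul_nonneg hq0.le (hm i)
    omega
  -- `δ - 1` raises the weights
  have hzero : ∀ j k : Fin r ⊕ Rt C, H26.wt l k ≤ H26.wt l j →
      H26.co (δ.1 (H26.bv j) - H26.bv j) k = 0 := by
    intro j k hjk
    rw [hl, wt_comb, wt_comb] at hjk
    have hBj := abs_le.1 (hB j)
    have hBk := abs_le.1 (hB k)
    have hBB := le_abs_self B
    have h1 : H26.wt m k ≤ H26.wt m j := by
      by_contra hcon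
      push Not at hcon
      have : q * (H26.wt m j + 1) ≤ q * H26.wt m k := mul_le_mul_of_nonneg_left (by omega) hq0.le
      rw [mul_add, mul_one] at this
      omega
    rcases lt_or_eq_of_le h1 with h2 | h2
    · -- negative weight
      obtain ⟨p, hp⟩ := hint j k
      have h3 := entry_bd hC hδt j k
      have hne : k ≠ j := by
        rintro rfl
        exact lt_irrefl _ h2
      rw [H26.co_sub, H26.co_bv, if_neg hne, sub_zero]
      by_contra h4
      have hp0 : p ≠ 0 := by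
        rintro rfl
        exact h4 (by rw [← hp, map_zero])
      rw [← hp] at h3
      have h5 := pdeg p _ hp0 h3
      omega
    · -- weight zero
      have h3 : H26.wt R k ≤ H26.wt R j := by
        rw [h2] at hjk
        omega
      obtain ⟨p, hp⟩ := hint j k
      obtain ⟨b, hb⟩ := hcong j k
      rw [entry_uni hC hwU j k h3] at hb
      rw [H26.co_sub]
      obtain ⟨e, he⟩ : ∃ e : Polynomial K, polyL K e = H26.co (H26.bv (K := K) j) k := by
        rw [H26.co_bv]
        split_ifs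
        · exact ⟨1, map_one _⟩
        · exact ⟨0, map_zero _⟩
      have h4 : polyL K (p - e) =
          H26.co (δ.1 (H26.bv j)) k - H26.co (H26.bv (K := K) j) k := by
        rw [map_sub, hp, he]
      rw [← h4]
      rw [← h4] at hb
      refine const_dvd hN ?_ b hb
      rw [h4, sub_eq_add_neg]
      apply badd
      · have h5 := entry_bd hC hδt j k
        rw [h2, sub_self] at h5
        exact h5
      · apply bneg
        rw [H26.co_bv]
        split_ifs
        · simpa using bint 1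
        · exact b0 0
  have hδU : δ ∈ Ul C K l 0 := by
    apply H22.hLev r C hC K l hldom
    intro k v hv
    rw [H26.fil_iff] at hv ⊢
    intro i hi
    have h1 : δ.1 v - v = ∑ j, H26.co v j • (δ.1 (H26.bv j) - H26.bv j) := by
      conv_lhs => rw [H26.expand v]
      rw [map_sum, ← Finset.sum_sub_distrib]
      refine Finset.sum_congr rfl fun j _ => ?_
      rw [map_smul, smul_sub]
    rw [h1, H26.co_sum]
    refine Finset.sum_eq_zero fun j _ => ?_
    rw [H26.co_smul]
    by_cases hj : H26.wt l j < k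
    · rw [hv j hj, zero_mul]
    · rw [hzero j i (by omega), mul_zero]
  have hle2 : Ul C K l 0 ≤ Ug C K := by
    refine Subgroup.closure_mono ?_
    rintro g ⟨β, x, h1, h2, h3⟩
    refine ⟨β, x, ?_, h3⟩
    have h4 : ht β ≠ 0 := H22.ht_ne_zero H22.hRS hC β
    rw [pos_iff hC]
    push_cast at h2
    omega
  have e : γ = a' * δ * a⁻¹ := by rw [hδ]; group
  rw [e]
  exact mul_mem (mul_mem ha' (hle2 hδU)) (inv_mem ha)

end

theorem sie : SieStmt := by
  intro r C hC K _
  refine ⟨fun u hu => decomp hC hu, fun m hm c hc => uo_fix hC hm hc, ?_⟩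
  intro N hN γ hγ m m' hm hm' u hu u' hu' h
  exact siegel hC hN hγ hm hm' hu hu' h

end Pool.Agent.WHT.H63
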